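import Pool.Agent.H654R5.PT.Stm

/-!
# Numerical facts about the parameters
-/

set_option autoImplicit false

namespace Pool.Agent.H654R5.PT.NUM

open Pool.Agent.H654R5.PT

theorem dd_le (h : S_PRM) (g : ℕ) : dd g ≤ (7 * g + 15) * (2 * (6 * g + 21) ^ 2) := by
  have h1 := (h (aa g) (by unfold aa; omega)).2.2
  unfold dd gg
  apply Nat.mul_le_mul_left
  have h2 : aa g * qp g ≤ aa g * (2 * aa g) := Nat.mul_le_mul_left _ (le_of_lt h1)
  refine h2.trans (le_of_eq ?_)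
  unfold aa
  ring

theorem dd_le1 (h : S_PRM) (g : ℕ) (hg : 1 ≤ g) : dd g ≤ 2 ^ 15 * g ^ 3 := by
  refine (dd_le h g).trans ?_
  have h1 : 7 * g + 15 ≤ 22 * g := by omega
  have h2 : 6 * g + 21 ≤ 27 * g := by omega
  calc (7 * g + 15) * (2 * (6 * g + 21) ^ 2) ≤ (22 * g) * (2 * (27 * g) ^ 2) :=
        Nat.mul_le_mul h1 (Nat.mul_le_mul_left _ (Nat.pow_le_pow_left h2 2))
    _ = 32076 * g ^ 3 := by ring
    _ ≤ 2 ^ 15 * g ^ 3 := Nat.mul_le_mul_right _ (by norm_num)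

theorem dd_le2 (h : S_PRM) (G : ℕ) (hG : 44 ≤ G) : dd G ≤ 784 * G ^ 3 := by
  refine (dd_le h G).trans ?_
  have h1 : 7 * G + 15 ≤ 8 * G := by omega
  have h2 : 6 * G + 21 ≤ 7 * G := by omega
  calc (7 * G + 15) * (2 * (6 * G + 21) ^ 2) ≤ (8 * G) * (2 * (7 * G) ^ 2) :=
        Nat.mul_le_mul h1 (Nat.mul_le_mul_left _ (Nat.pow_le_pow_left h2 2))
    _ = 784 * G ^ 3 := by ring

theorem cube_le (s : ℕ) : 784 * (4 * (s + 1) + 40) ^ 3 ≤ 2 ^ 26 * 2 ^ s := by
  induction s with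
  | zero => norm_num
  | succ s ih =>
    have h1 : 784 * (4 * (s + 1 + 1) + 40) ^ 3 ≤ 2 * (784 * (4 * (s + 1) + 40) ^ 3) := by
      have h2 : (4 * (s + 1 + 1) + 40) ^ 3 ≤ 2 * (4 * (s + 1) + 40) ^ 3 := by
        nlinarith [sq_nonneg (s : ℤ), Nat.zero_le s, Nat.zero_le (s ^ 2), Nat.zero_le (s ^ 3)]
      calc 784 * (4 * (s + 1 + 1) + 40) ^ 3 ≤ 784 * (2 * (4 * (s + 1) + 40) ^ 3) :=
            Nat.mul_le_mul_left _ h2
        _ = _ := by ring
    calc 784 * (4 * (s + 1 + 1) + 40) ^ 3 ≤ 2 * (784 * (4 * (s + 1) + 40) ^ 3) := h1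
      _ ≤ 2 * (2 ^ 26 * 2 ^ s) := Nat.mul_le_mul_left _ ih
      _ = 2 ^ 26 * 2 ^ (s + 1) := by ring

theorem size_pos (g : ℕ) (hg : 1 ≤ g) : 1 ≤ Nat.size g := Nat.size_pos.2 hg

theorem size_le (g : ℕ) : Nat.size g ≤ g := Nat.size_le.2 Nat.lt_two_pow_self

theorem ddG (h : S_PRM) (g : ℕ) (hg : 1 ≤ g) : dd (gS g) ≤ 2 ^ 26 * g := by
  obtain ⟨s, hs⟩ : ∃ s, Nat.size g = s + 1 := ⟨Nat.size g - 1, by have := size_pos g hg; omega⟩
  have h1 : 2 ^ s ≤ g := Nat.lt_size.1 (by omega)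
  have hG : gS g = 4 * (s + 1) + 40 := by unfold gS; rw [hs]
  have h2 := dd_le2 h (gS g) (by omega)
  rw [hG] at h2 ⊢
  exact h2.trans ((cube_le s).trans (Nat.mul_le_mul_left _ h1))

theorem gS_le (g : ℕ) : gS g ≤ 4 * g + 40 := by
  unfold gS
  have := size_le g
  omega

theorem cube_ge (g : ℕ) : g ≤ g ^ 3 := Nat.le_self_pow (by norm_num) g

theorem kap_le (h : S_PRM) (g τ : ℕ) (hg : 1 ≤ g) (hτ : τ ≤ 2 ^ 28 * g ^ 3) :
    kap g τ ≤ 2 ^ 29 * g ^ 3 := by
  have h1 := ddG h g hg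
  have h2 := gS_le g
  have h3 := cube_ge g
  unfold kap
  generalize gS g = G at *
  generalize dd G = D at *
  generalize g ^ 3 = c at *
  norm_num at *
  omega

theorem NUM_proof (h : S_PRM) : S_NUM := by
  intro g hg
  have h1 := dd_le1 h g hg
  have h2 := ddG h g hg
  have h3 := gS_le g
  have h4 := cube_ge g
  have htau : tau2 g = 2 * dd g + 3 * g + 11 := by
    unfold tau2 K2 kap
    omega
  refine ⟨h1, h2, ?_, ?_, htau, ?_, ?_⟩
  · unfold nu1 K2 kap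
    generalize gS g = G at *
    generalize dd G = D at *
    generalize g ^ 3 = c at *
    norm_num at *
    omega
  · rw [htau]
    generalize g ^ 3 = c at *
    norm_num at *
    omega
  · by_cases hg3 : 3 ≤ g
    · refine le_trans ?_ (le_max_left _ _)
      have h5 : g + 3 ≤ 2 ^ g := by
        clear h1 h2 h3 h4 htau hg
        induction g, hg3 using Nat.le_induction with
        | base => norm_num
        | succ n hn ih =>
          rw [pow_succ]
          omega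
      rw [pow_succ]
      omega
    · refine le_trans ?_ (le_max_right _ _)
      have h5 : 2 ^ g ≤ 4 := by
        calc 2 ^ g ≤ 2 ^ 2 := Nat.pow_le_pow_right (by norm_num) (by omega)
          _ = 4 := by norm_num
      unfold padN
      omega
  · intro τ hτ
    have h5 := kap_le h g τ hg hτ
    have hsz : g < 2 ^ Nat.size g := Nat.lt_size_self g
    set s := Nat.size g with hs
    have hG : gS g = 4 * s + 40 := rfl
    refine ⟨?_, ?_, ?_⟩
    · have h6 : cS g ≤ 39 * g := by unfold cS; omega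
      have h7 : g ^ 4 ≤ 2 ^ (4 * s) := by
        rw [mul_comm, pow_mul]
        exact Nat.pow_le_pow_left hsz.le 4
      calc kap g τ * cS g ≤ (2 ^ 29 * g ^ 3) * (39 * g) := Nat.mul_le_mul h5 h6
        _ = (2 ^ 29 * 39) * g ^ 4 := by ring
        _ ≤ 2 ^ 40 * 2 ^ (4 * s) := Nat.mul_le_mul (by norm_num) h7
        _ = 2 ^ (gS g) := by rw [hG, ← pow_add, add_comm]
    · have h6 : NN g = 3 * 3 ^ g := by unfold NN; rw [pow_succ]; ring
      have h7 : (3 : ℕ) ^ g ≤ 2 ^ (2 * g) := by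
        rw [pow_mul]
        exact Nat.pow_le_pow_left (by norm_num) g
      have h8 : g ^ 3 ≤ 2 ^ (3 * g) := by
        rw [mul_comm, pow_mul]
        exact Nat.pow_le_pow_left (Nat.lt_two_pow_self).le 3
      have h9 : 2 ^ (2 * g) ≤ 2 ^ (5 * g) := Nat.pow_le_pow_right (by norm_num) (by omega)
      rw [h6]
      calc 2 * kap g τ * (3 * 3 ^ g) + 2 * 3 ^ g
          ≤ 2 * (2 ^ 29 * 2 ^ (3 * g)) * (3 * 2 ^ (2 * g)) + 2 * 2 ^ (5 * g) := by
            refine Nat.add_le_add ?_ (Nat.mul_le_mul_left _ (h7.trans h9))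
            refine Nat.mul_le_mul (Nat.mul_le_mul_left _ ?_) (Nat.mul_le_mul_left _ h7)
            exact h5.trans (Nat.mul_le_mul_left _ h8)
        _ = (3 * 2 ^ 30) * (2 ^ (3 * g) * 2 ^ (2 * g)) + 2 * 2 ^ (5 * g) := by ring
        _ = (3 * 2 ^ 30 + 2) * 2 ^ (5 * g) := by
            rw [← pow_add, show 3 * g + 2 * g = 5 * g by ring, Nat.add_mul]
        _ ≤ 2 ^ 34 * 2 ^ (5 * g) := Nat.mul_le_mul_right _ (by norm_num)
        _ = 2 ^ cS g := by unfold cS; rw [← pow_add, add_comm]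
    · have h6 : g ^ 3 ≤ 2 ^ (4 * s) := by
        have h7 : g ^ 3 ≤ 2 ^ (3 * s) := by
          rw [mul_comm, pow_mul]
          exact Nat.pow_le_pow_left hsz.le 3
        exact h7.trans (Nat.pow_le_pow_right (by norm_num) (by omega))
      have h7 : 1 ≤ 2 ^ (4 * s) := Nat.one_le_two_pow
      calc τ + 2 ≤ 2 ^ 28 * g ^ 3 + 2 := Nat.add_le_add_right hτ 2
        _ ≤ 2 ^ 28 * 2 ^ (4 * s) + 2 * 2 ^ (4 * s) :=
            Nat.add_le_add (Nat.mul_le_mul_left _ h6) (Nat.le_mul_of_pos_right 2 h7)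
        _ = (2 ^ 28 + 2) * 2 ^ (4 * s) := (Nat.add_mul _ _ _).symm
        _ ≤ 2 ^ 41 * 2 ^ (4 * s) := Nat.mul_le_mul_right _ (by norm_num)
        _ = 2 ^ (gS g + 1) := by
          rw [hG, ← pow_add, show 4 * s + 40 + 1 = 41 + 4 * s by ring]

end Pool.Agent.H654R5.PT.NUM
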